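import Mathlib
/-!
# Random sets with k-wise independent membership: second moments
-/

set_option autoImplicit false

open Finset Filter MeasureTheory ProbabilityTheory

namespace Pool.Agent.Y940.RS

/-- the number of ordered pairs of elements of `A` with sum `n` -/
noncomputable def rep (A : Set ℕ) (n : ℕ) : ℕ :=
  {x : ℕ × ℕ | x.1 ∈ A ∧ x.2 ∈ A ∧ x.1 + x.2 = n}.ncard

theorem rep_finite (A : Set ℕ) (n : ℕ) :
    {x : ℕ × ℕ | x.1 ∈ A ∧ x.2 ∈ A ∧ x.1 + x.2 = n}.Finite := by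
  refine (Finset.finite_toSet (antidiagonal n)).subset ?_
  rintro x ⟨_, _, h⟩
  exact mem_coe.2 (mem_antidiagonal.2 h)

theorem two_mul_le_rep (A : Set ℕ) (s : ℕ) (T : Finset ℕ)
    (hT : ∀ a ∈ T, a ∈ A ∧ s - a ∈ A ∧ 2 * a < s) : 2 * T.card ≤ rep A s := by
  classical
  set P : Finset (ℕ × ℕ) := T.image (fun a => (a, s - a)) ∪ T.image (fun a => (s - a, a)) with hP
  have hPcard : P.card = 2 * T.card := by
    rw [hP, card_union_of_disjoint, card_image_of_injOn, card_image_of_injOn]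
    · ring
    · intro a _ b _ h
      exact (Prod.ext_iff.1 h).2
    · intro a _ b _ h
      exact (Prod.ext_iff.1 h).1
    · rw [disjoint_left]
      intro x h1 h2
      obtain ⟨a, ha, rfl⟩ := mem_image.1 h1
      obtain ⟨b, hb, h⟩ := mem_image.1 h2
      have h3 := (Prod.ext_iff.1 h).1
      have h4 := (Prod.ext_iff.1 h).2
      have h5 := (hT a ha).2.2
      have h6 := (hT b hb).2.2
      simp only at h3 h4
      omega
  have hsub : (P : Set (ℕ × ℕ)) ⊆ {x : ℕ × ℕ | x.1 ∈ A ∧ x.2 ∈ A ∧ x.1 + x.2 = s} := by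
    intro x hx
    rw [mem_coe, hP, mem_union, mem_image, mem_image] at hx
    rcases hx with ⟨a, ha, rfl⟩ | ⟨a, ha, rfl⟩
    · obtain ⟨h1, h2, h3⟩ := hT a ha
      exact ⟨h1, h2, by simp only; omega⟩
    · obtain ⟨h1, h2, h3⟩ := hT a ha
      exact ⟨h2, h1, by simp only; omega⟩
  calc 2 * T.card = P.card := hPcard.symm
    _ = (P : Set (ℕ × ℕ)).ncard := (Set.ncard_coe_finset P).symm
    _ ≤ rep A s := Set.ncard_le_ncard hsub (rep_finite A s)

theorem rep_mono {A B : Set ℕ} (h : A ⊆ B) (n : ℕ) : rep A n ≤ rep B n :=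
  Set.ncard_le_ncard (fun _ hx => ⟨h hx.1, h hx.2.1, hx.2.2⟩) (rep_finite B n)

variable {Ω : Type*} [MeasurableSpace Ω]

/-- the events `E n` (the number `n` belongs to the random set) are `k`-wise independent -/
def KW (μ : Measure Ω) (E : ℕ → Set Ω) (k : ℕ) : Prop :=
  (∀ n, MeasurableSet (E n)) ∧
    ∀ U : Finset ℕ, U.card ≤ k → μ.real (⋂ n ∈ U, E n) = ∏ n ∈ U, μ.real (E n)

theorem KW.mono {μ : Measure Ω} {E : ℕ → Set Ω} {k l : ℕ} (h : KW μ E k) (hl : l ≤ k) :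
    KW μ E l := ⟨h.1, fun U hU => h.2 U (hU.trans hl)⟩

theorem KW.of_indep {μ : Measure Ω} {E : ℕ → Set Ω} (hm : ∀ n, MeasurableSet (E n))
    (h : iIndepSet E μ) (k : ℕ) : KW μ E k := by
  refine ⟨hm, fun U _ => ?_⟩
  rw [measureReal_def, h.meas_biInter, ENNReal.toReal_prod]
  rfl

/-- the random set -/
def rset (E : ℕ → Set Ω) (ω : Ω) : Set ℕ := {n | ω ∈ E n}

/-- the indicator function of the event that all elements of `U` belong to the random set -/
noncomputable def ind (E : ℕ → Set Ω) (U : Finset ℕ) : Ω → ℝ :=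
  (⋂ n ∈ U, E n).indicator (fun _ => (1 : ℝ))

omit [MeasurableSpace Ω] in
theorem ind_nonneg (E : ℕ → Set Ω) (U : Finset ℕ) (ω : Ω) : 0 ≤ ind E U ω :=
  Set.indicator_nonneg (fun _ _ => zero_le_one) ω

omit [MeasurableSpace Ω] in
theorem ind_mul (E : ℕ → Set Ω) (U W : Finset ℕ) (ω : Ω) :
    ind E U ω * ind E W ω = ind E (U ∪ W) ω := by
  classical
  have hU : ω ∈ ⋂ n ∈ U ∪ W, E n ↔ ω ∈ (⋂ n ∈ U, E n) ∧ ω ∈ ⋂ n ∈ W, E n := by
    simp only [Set.mem_iInter, mem_union]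
    constructor
    · intro h
      exact ⟨fun i hi => h i (Or.inl hi), fun i hi => h i (Or.inr hi)⟩
    · rintro ⟨h1, h2⟩ i (hi | hi)
      · exact h1 i hi
      · exact h2 i hi
  unfold ind
  rw [Set.indicator_apply, Set.indicator_apply, Set.indicator_apply]
  by_cases h1 : ω ∈ ⋂ n ∈ U, E n
  · by_cases h2 : ω ∈ ⋂ n ∈ W, E n
    · rw [if_pos h1, if_pos h2, if_pos (hU.2 ⟨h1, h2⟩), one_mul]
    · rw [if_pos h1, if_neg h2, if_neg (fun h => h2 (hU.1 h).2), mul_zero]
  · rw [if_neg h1, if_neg (fun h => h1 (hU.1 h).1), zero_mul]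

theorem measurable_inter {E : ℕ → Set Ω} (hm : ∀ n, MeasurableSet (E n)) (U : Finset ℕ) :
    MeasurableSet (⋂ n ∈ U, E n) := Finset.measurableSet_biInter _ fun n _ => hm n

theorem integrable_ind {μ : Measure Ω} [IsProbabilityMeasure μ] {E : ℕ → Set Ω}
    (hm : ∀ n, MeasurableSet (E n)) (U : Finset ℕ) : Integrable (ind E U) μ :=
  (integrable_const (1 : ℝ)).indicator (measurable_inter hm U)

theorem integral_ind {μ : Measure Ω} [IsProbabilityMeasure μ] {E : ℕ → Set Ω}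
    (hm : ∀ n, MeasurableSet (E n)) (U : Finset ℕ) :
    ∫ ω, ind E U ω ∂μ = μ.real (⋂ n ∈ U, E n) := by
  unfold ind
  rw [integral_indicator_const _ (measurable_inter hm U)]
  simp

open Classical in
/-- the number of the `j ∈ J` such that all elements of `U j` belong to the random set -/
noncomputable def cnt {ι : Type*} (E : ℕ → Set Ω) (J : Finset ι) (U : ι → Finset ℕ) (ω : Ω) : ℕ :=
  (J.filter fun j => ∀ v ∈ U j, ω ∈ E v).card

omit [MeasurableSpace Ω] in
theorem cnt_eq {ι : Type*} (E : ℕ → Set Ω) (J : Finset ι) (U : ι → Finset ℕ) (ω : Ω) :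
    (cnt E J U ω : ℝ) = ∑ j ∈ J, ind E (U j) ω := by
  classical
  unfold cnt ind
  rw [card_filter]
  push_cast
  refine sum_congr rfl fun j _ => ?_
  rw [Set.indicator_apply]
  simp only [Set.mem_iInter]

theorem chebyshev {μ : Measure Ω} [IsProbabilityMeasure μ] {E : ℕ → Set Ω} {k : ℕ}
    (hE : KW μ E (2 * k)) {ι : Type*} (J : Finset ι) (U : ι → Finset ℕ)
    (hU : ∀ j ∈ J, (U j).card ≤ k) (D : ℝ)
    (hD : ∀ j ∈ J, ∑ i ∈ J, ∏ v ∈ U i \ U j, μ.real (E v) ≤
      (∑ i ∈ J, ∏ v ∈ U i, μ.real (E v)) + D) (t : ℝ)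
    (ht : t ≤ ∑ i ∈ J, ∏ v ∈ U i, μ.real (E v)) :
    μ.real {ω | (cnt E J U ω : ℝ) ≤ t} * ((∑ i ∈ J, ∏ v ∈ U i, μ.real (E v)) - t) ^ 2 ≤
      D * ∑ i ∈ J, ∏ v ∈ U i, μ.real (E v) := by
  classical
  set m : ℝ := ∑ i ∈ J, ∏ v ∈ U i, μ.real (E v) with hm
  have hmeas := hE.1
  have hY1 : ∫ ω, (cnt E J U ω : ℝ) ∂μ = m := by
    simp_rw [cnt_eq]
    rw [integral_finsetSum _ fun j _ => integrable_ind hmeas _, hm]
    refine sum_congr rfl fun j hj => ?_
    rw [integral_ind hmeas, hE.2 _ ((hU j hj).trans (by omega))]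
  have hsq : ∀ ω, (cnt E J U ω : ℝ) ^ 2 = ∑ j ∈ J, ∑ i ∈ J, ind E (U j ∪ U i) ω := by
    intro ω
    rw [cnt_eq, sq, sum_mul_sum]
    refine sum_congr rfl fun j _ => sum_congr rfl fun i _ => ?_
    rw [ind_mul]
  have hint1 : Integrable (fun ω => (cnt E J U ω : ℝ)) μ := by
    simp_rw [cnt_eq]
    exact integrable_finsetSum _ fun j _ => integrable_ind hmeas _
  have hint2 : Integrable (fun ω => (cnt E J U ω : ℝ) ^ 2) μ := by
    simp_rw [hsq]
    exact integrable_finsetSum _ fun j _ => integrable_finsetSum _ fun i _ =>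
      integrable_ind hmeas _
  have hY2 : ∫ ω, (cnt E J U ω : ℝ) ^ 2 ∂μ ≤ m ^ 2 + D * m := by
    simp_rw [hsq]
    rw [integral_finsetSum _ fun j _ => integrable_finsetSum _ fun i _ =>
      integrable_ind hmeas _]
    calc ∑ j ∈ J, ∫ ω, ∑ i ∈ J, ind E (U j ∪ U i) ω ∂μ
        = ∑ j ∈ J, (∏ v ∈ U j, μ.real (E v)) * ∑ i ∈ J, ∏ v ∈ U i \ U j, μ.real (E v) := by
          refine sum_congr rfl fun j hj => ?_
          rw [integral_finsetSum _ fun i _ => integrable_ind hmeas _, mul_sum]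
          refine sum_congr rfl fun i hi => ?_
          rw [integral_ind hmeas, hE.2]
          · rw [← union_sdiff_self_eq_union, prod_union disjoint_sdiff]
          · refine (card_union_le _ _).trans ?_
            have h1 := hU j hj
            have h2 := hU i hi
            omega
      _ ≤ ∑ j ∈ J, (∏ v ∈ U j, μ.real (E v)) * (m + D) := by
          refine sum_le_sum fun j hj => ?_
          exact mul_le_mul_of_nonneg_left (hD j hj)
            (prod_nonneg fun v _ => measureReal_nonneg)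
      _ = m ^ 2 + D * m := by
          rw [← sum_mul, ← hm]
          ring
  have hvar : ∫ ω, ((cnt E J U ω : ℝ) - m) ^ 2 ∂μ ≤ D * m := by
    have h1 : ∀ ω, ((cnt E J U ω : ℝ) - m) ^ 2 =
        (cnt E J U ω : ℝ) ^ 2 - 2 * m * (cnt E J U ω : ℝ) + m ^ 2 := fun ω => by ring
    have h2 : ∫ ω, ((cnt E J U ω : ℝ) - m) ^ 2 ∂μ =
        ∫ ω, (cnt E J U ω : ℝ) ^ 2 ∂μ - 2 * m * ∫ ω, (cnt E J U ω : ℝ) ∂μ + m ^ 2 := by
      calc ∫ ω, ((cnt E J U ω : ℝ) - m) ^ 2 ∂μ
          = ∫ ω, (((cnt E J U ω : ℝ) ^ 2 - 2 * m * (cnt E J U ω : ℝ)) + m ^ 2) ∂μ := by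
            simp_rw [h1]
        _ = ∫ ω, ((cnt E J U ω : ℝ) ^ 2 - 2 * m * (cnt E J U ω : ℝ)) ∂μ + ∫ _, m ^ 2 ∂μ :=
            integral_add (hint2.sub (hint1.const_mul _)) (integrable_const _)
        _ = (∫ ω, (cnt E J U ω : ℝ) ^ 2 ∂μ - ∫ ω, 2 * m * (cnt E J U ω : ℝ) ∂μ) +
            ∫ _, m ^ 2 ∂μ := by
            rw [integral_sub hint2 (hint1.const_mul _)]
        _ = _ := by
            rw [integral_const_mul, integral_const]
            simp
    rw [h2, hY1]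
    nlinarith
  have hset : MeasurableSet {ω | (cnt E J U ω : ℝ) ≤ t} := by
    have h2 : Measurable fun ω => (cnt E J U ω : ℝ) := by
      simp_rw [cnt_eq]
      refine Finset.measurable_sum _ fun j _ => ?_
      exact (measurable_const).indicator (measurable_inter hmeas _)
    exact measurableSet_le h2 measurable_const
  calc μ.real {ω | (cnt E J U ω : ℝ) ≤ t} * (m - t) ^ 2
      = ∫ ω, ({ω | (cnt E J U ω : ℝ) ≤ t}).indicator (fun _ => (m - t) ^ 2) ω ∂μ := by
        rw [integral_indicator_const _ hset, smul_eq_mul]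
    _ ≤ ∫ ω, ((cnt E J U ω : ℝ) - m) ^ 2 ∂μ := by
        refine integral_mono ((integrable_const _).indicator hset) ?_ fun ω => ?_
        · have h1 : ∀ ω, ((cnt E J U ω : ℝ) - m) ^ 2 =
              (cnt E J U ω : ℝ) ^ 2 - 2 * m * (cnt E J U ω : ℝ) + m ^ 2 := fun ω => by ring
          simp_rw [h1]
          exact (hint2.sub (hint1.const_mul _)).add (integrable_const _)
        · rw [Set.indicator_apply]
          split_ifs with h
          · have h3 : (cnt E J U ω : ℝ) ≤ t := h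
            nlinarith
          · positivity
    _ ≤ D * m := hvar

end Pool.Agent.Y940.RS
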