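import Mathlib
import Pool.Agent.H38.SP.S8.Y940.RS.Layers
/-!
# Random sets: the main estimate
-/

set_option autoImplicit false

open Finset Filter MeasureTheory ProbabilityTheory

namespace Pool.Agent.Y940.RS

theorem subsum (P : Finset ℕ) (w : ℕ → ℝ) (δ τ : ℝ) (hδ : 0 ≤ δ) (hτ : 0 ≤ τ)
    (hw : ∀ a ∈ P, w a ≤ δ) (h : τ ≤ ∑ a ∈ P, w a) :
    ∃ T ⊆ P, τ ≤ ∑ a ∈ T, w a ∧ ∑ a ∈ T, w a ≤ τ + δ := by
  classical
  induction P using Finset.induction_on with
  | empty => exact ⟨∅, Subset.refl _, h, by simp; linarith⟩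
  | insert a P ha ih =>
    by_cases h1 : τ ≤ ∑ a ∈ P, w a
    · obtain ⟨T, hT, h2⟩ := ih (fun b hb => hw b (mem_insert_of_mem hb)) h1
      exact ⟨T, hT.trans (subset_insert _ _), h2⟩
    · refine ⟨insert a P, Subset.refl _, h, ?_⟩
      rw [sum_insert ha]
      have := hw a (mem_insert_self a P)
      push Not at h1
      linarith

theorem exists_layers (w : ℕ → ℝ) (δ τ : ℝ) (hδ : 0 ≤ δ) (hτ : 0 ≤ τ) (K : ℕ) :
    ∀ P : Finset ℕ, (∀ a ∈ P, w a ≤ δ) → (K * (τ + δ) ≤ ∑ a ∈ P, w a) →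
    ∃ L : ℕ → Finset ℕ, (∀ l < K, L l ⊆ P ∧ τ ≤ ∑ a ∈ L l, w a ∧ ∑ a ∈ L l, w a ≤ τ + δ) ∧
      ∀ l l', l < K → l' < K → l ≠ l' → Disjoint (L l) (L l') := by
  classical
  induction K with
  | zero => exact fun P _ _ => ⟨fun _ => ∅, fun l hl => absurd hl (by omega),
      fun l l' hl => absurd hl (by omega)⟩
  | succ K ih =>
    intro P hw h
    have hKn : (0 : ℝ) ≤ K * (τ + δ) := by positivity
    push_cast at h
    obtain ⟨T, hT, h1, h2⟩ := subsum P w δ τ hδ hτ hw (by nlinarith)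
    obtain ⟨L, h3, h4⟩ := ih (P \ T) (fun a ha => hw a (mem_sdiff.1 ha).1) (by
      have := sum_sdiff (f := w) hT
      nlinarith)
    refine ⟨fun l => if l < K then L l else T, fun l hl => ?_, fun l l' hl hl' hne => ?_⟩
    · by_cases h5 : l < K
      · simp only [if_pos h5]
        obtain ⟨h6, h7⟩ := h3 l h5
        exact ⟨h6.trans sdiff_subset, h7⟩
      · simp only [if_neg h5]
        exact ⟨hT, h1, h2⟩
    · by_cases h5 : l < K
      · by_cases h6 : l' < K
        · simp only [if_pos h5, if_pos h6]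
          exact h4 l l' h5 h6 hne
        · simp only [if_pos h5, if_neg h6]
          exact disjoint_of_subset_left (h3 l h5).1 sdiff_disjoint
      · by_cases h6 : l' < K
        · simp only [if_neg h5, if_pos h6]
          exact (disjoint_of_subset_left (h3 l' h6).1 sdiff_disjoint).symm
        · omega

/-- the smaller elements of the pairs in `V` with sum `s` -/
def pairs (V : Finset ℕ) (s : ℕ) : Finset ℕ := V.filter fun a => 2 * a < s ∧ s - a ∈ V

theorem mem_pairs {V : Finset ℕ} {s a : ℕ} :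
    a ∈ pairs V s ↔ a ∈ V ∧ 2 * a < s ∧ s - a ∈ V := by
  unfold pairs
  rw [mem_filter]

variable {Ω : Type*} [MeasurableSpace Ω]

/-- one target with a large mean -/
theorem large_mean {μ : Measure Ω} [IsProbabilityMeasure μ] {E : ℕ → Set Ω}
    (hE : KW μ E 4) (V : Finset ℕ) (s K : ℕ)
    (hm : 2 * (K : ℝ) ≤ ∑ a ∈ pairs V s, μ.real (E a) * μ.real (E (s - a))) :
    μ.real {ω | rep (rset E ω) s < 2 * K} *
      ∑ a ∈ pairs V s, μ.real (E a) * μ.real (E (s - a)) ≤ 4 := by
  classical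
  have hprod : ∀ a ∈ pairs V s, ∏ v ∈ ({a, s - a} : Finset ℕ), μ.real (E v) =
      μ.real (E a) * μ.real (E (s - a)) := by
    intro a ha
    have h1 := (mem_pairs.1 ha).2.1
    rw [prod_pair]
    omega
  set m : ℝ := ∑ a ∈ pairs V s, μ.real (E a) * μ.real (E (s - a)) with hmdef
  have hmsum : ∑ i ∈ pairs V s, ∏ v ∈ ({i, s - i} : Finset ℕ), μ.real (E v) = m :=
    sum_congr rfl hprod
  have hK0 : (0 : ℝ) ≤ K := Nat.cast_nonneg K
  have hmain := chebyshev (k := 2) (hE) (pairs V s) (fun a => ({a, s - a} : Finset ℕ))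
    (fun a _ => card_le_two) 1 ?_ K ?_
  · rw [hmsum] at hmain
    have hsub : μ.real {ω | rep (rset E ω) s < 2 * K} ≤
        μ.real {ω | (cnt E (pairs V s) (fun a => ({a, s - a} : Finset ℕ)) ω : ℝ) ≤ K} := by
      refine measureReal_mono ?_
      intro ω hω
      have hω' : rep (rset E ω) s < 2 * K := hω
      show (cnt E (pairs V s) (fun a => ({a, s - a} : Finset ℕ)) ω : ℝ) ≤ K
      have h2 := two_mul_le_rep (rset E ω) s
        ((pairs V s).filter fun j => ∀ v ∈ ({j, s - j} : Finset ℕ), ω ∈ E v) (by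
          intro a ha
          obtain ⟨h3, h4⟩ := mem_filter.1 ha
          exact ⟨h4 a (by simp), h4 (s - a) (by simp), (mem_pairs.1 h3).2.1⟩)
      have h5 : cnt E (pairs V s) (fun a => ({a, s - a} : Finset ℕ)) ω =
          ((pairs V s).filter fun j => ∀ v ∈ ({j, s - j} : Finset ℕ), ω ∈ E v).card := by
        unfold cnt
        congr
      rw [h5]
      have h6 : ((pairs V s).filter fun j => ∀ v ∈ ({j, s - j} : Finset ℕ), ω ∈ E v).card ≤ K := by
        omega
      exact_mod_cast h6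
    set P0 : ℝ := μ.real {ω | (cnt E (pairs V s) (fun a => ({a, s - a} : Finset ℕ)) ω : ℝ) ≤ K}
      with hP0
    have hP00 : 0 ≤ P0 := measureReal_nonneg
    have hm0 : 0 ≤ m := le_trans (by positivity) hm
    have h7 : P0 * m ≤ 4 := by
      rcases hm0.lt_or_eq with h | h
      · have h8 : m / 2 ≤ m - K := by linarith
        have h9 : P0 * (m / 2) ^ 2 ≤ 1 * m := by
          refine le_trans ?_ hmain
          refine mul_le_mul_of_nonneg_left ?_ hP00
          exact pow_le_pow_left₀ (by linarith) h8 2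
        have h10 : (P0 * m) * m ≤ 4 * m := by nlinarith
        exact le_of_mul_le_mul_right h10 h
      · rw [← h]
        norm_num
    exact (mul_le_mul_of_nonneg_right hsub hm0).trans h7
  · intro j hj
    rw [hmsum]
    have hj' := (mem_pairs.1 hj).2.1
    have h1 : ∀ i ∈ pairs V s, ∏ v ∈ ({i, s - i} : Finset ℕ) \ {j, s - j}, μ.real (E v) ≤
        μ.real (E i) * μ.real (E (s - i)) + if i = j then 1 else 0 := by
      intro i hi
      have hi' := (mem_pairs.1 hi).2.1
      by_cases hij : i = j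
      · subst hij
        have h0 : ({i, s - i} : Finset ℕ) \ {i, s - i} = ∅ := Finset.sdiff_self _
        rw [if_pos rfl, h0, prod_empty]
        have : 0 ≤ μ.real (E i) * μ.real (E (s - i)) :=
          mul_nonneg measureReal_nonneg measureReal_nonneg
        linarith
      · rw [if_neg hij, add_zero, sdiff_eq_self_of_disjoint, hprod i hi]
        rw [disjoint_left]
        intro v h2 h3
        rw [mem_insert, mem_singleton] at h2 h3
        omega
    refine (sum_le_sum h1).trans ?_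
    rw [sum_add_distrib, sum_ite_eq' (pairs V s) j, if_pos hj]
  · rw [hmsum]
    linarith

/-- the sum of the means over all targets -/
theorem sum_pairs_ge (V : Finset ℕ) (N : ℕ) (hV : ∀ v ∈ V, v ≤ N) (p : ℕ → ℝ)
    (hp0 : ∀ n, 0 ≤ p n) (hp1 : ∀ n, p n ≤ 1) :
    ((∑ v ∈ V, p v) ^ 2 - ∑ v ∈ V, p v) / 2 ≤
      ∑ s ∈ range (2 * N + 1), ∑ a ∈ pairs V s, p a * p (s - a) := by
  classical
  have h1 : ∑ s ∈ range (2 * N + 1), ∑ a ∈ pairs V s, p a * p (s - a) =
      ∑ x ∈ (V ×ˢ V).filter (fun x => x.1 < x.2), p x.1 * p x.2 := by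
    rw [sum_sigma']
    refine sum_nbij' (fun y => (y.2, y.1 - y.2)) (fun x => ⟨x.1 + x.2, x.1⟩) ?_ ?_ ?_ ?_ ?_
    · rintro ⟨s, a⟩ hy
      rw [mem_sigma] at hy
      obtain ⟨h2, h3⟩ := hy
      obtain ⟨h4, h5, h6⟩ := mem_pairs.1 h3
      rw [mem_filter, mem_product]
      exact ⟨⟨h4, h6⟩, by simp only at h5 ⊢; omega⟩
    · rintro ⟨a, b⟩ hx
      rw [mem_filter, mem_product] at hx
      obtain ⟨⟨h4, h6⟩, h5⟩ := hx
      simp only at h4 h5 h6
      rw [mem_sigma, mem_range, mem_pairs]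
      have h7 := hV a h4
      have h8 := hV b h6
      refine ⟨by simp only; omega, h4, by simp only; omega, ?_⟩
      simp only
      rw [Nat.add_sub_cancel_left]
      exact h6
    · rintro ⟨s, a⟩ hy
      rw [mem_sigma] at hy
      obtain ⟨h2, h3⟩ := hy
      obtain ⟨h4, h5, h6⟩ := mem_pairs.1 h3
      simp only at h5
      have h7 : a + (s - a) = s := by omega
      simp only [h7]
    · rintro ⟨a, b⟩ _
      simp only [Nat.add_sub_cancel_left]
    · rintro ⟨s, a⟩ _
      rfl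
  rw [h1]
  set R : ℝ := ∑ x ∈ (V ×ˢ V).filter (fun x => x.1 < x.2), p x.1 * p x.2 with hR
  have h2 : ∑ x ∈ (V ×ˢ V).filter (fun x => x.2 < x.1), p x.1 * p x.2 = R := by
    rw [hR]
    refine sum_nbij' Prod.swap Prod.swap ?_ ?_ ?_ ?_ ?_
    · intro x hx
      rw [mem_filter, mem_product] at hx ⊢
      exact ⟨⟨hx.1.2, hx.1.1⟩, hx.2⟩
    · intro x hx
      rw [mem_filter, mem_product] at hx ⊢
      exact ⟨⟨hx.1.2, hx.1.1⟩, hx.2⟩
    · intro x _
      exact Prod.swap_swap x
    · intro x _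
      exact Prod.swap_swap x
    · intro x _
      exact mul_comm _ _
  have h3 : ∑ x ∈ (V ×ˢ V).filter (fun x => x.1 = x.2), p x.1 * p x.2 ≤ ∑ v ∈ V, p v := by
    calc ∑ x ∈ (V ×ˢ V).filter (fun x => x.1 = x.2), p x.1 * p x.2
        = ∑ v ∈ V, p v * p v := by
          refine sum_nbij' (fun x => x.1) (fun v => (v, v)) ?_ ?_ ?_ ?_ ?_
          · intro x hx
            rw [mem_filter, mem_product] at hx
            exact hx.1.1
          · intro v hv
            rw [mem_filter, mem_product]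
            exact ⟨⟨hv, hv⟩, rfl⟩
          · rintro ⟨a, b⟩ hx
            rw [mem_filter] at hx
            have := hx.2
            simp only at this ⊢
            rw [this]
          · intro v _
            rfl
          · rintro ⟨a, b⟩ hx
            rw [mem_filter] at hx
            have := hx.2
            simp only at this ⊢
            rw [this]
      _ ≤ ∑ v ∈ V, p v := by
          refine sum_le_sum fun v _ => ?_
          have h4 := hp0 v
          have h5 := hp1 v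
          nlinarith
  have h4 : (∑ v ∈ V, p v) ^ 2 = R + (R + ∑ x ∈ (V ×ˢ V).filter (fun x => x.1 = x.2),
      p x.1 * p x.2) := by
    rw [sq, sum_mul_sum, ← sum_product', ← sum_filter_add_sum_filter_not (V ×ˢ V)
      (fun x => x.1 < x.2), ← hR]
    congr 1
    rw [← h2, ← sum_filter_add_sum_filter_not ((V ×ˢ V).filter (fun x => ¬ x.1 < x.2))
      (fun x => x.2 < x.1), filter_filter, filter_filter]
    congr 1
    · refine sum_congr ?_ fun _ _ => rfl
      ext x
      simp only [mem_filter]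
      constructor
      · rintro ⟨h5, h6, h7⟩
        exact ⟨h5, h7⟩
      · rintro ⟨h5, h7⟩
        exact ⟨h5, by omega, h7⟩
    · refine sum_congr ?_ fun _ _ => rfl
      ext x
      simp only [mem_filter]
      constructor
      · rintro ⟨h5, h6, h7⟩
        exact ⟨h5, by omega⟩
      · rintro ⟨h5, h7⟩
        exact ⟨h5, by omega, by omega⟩
  linarith

/-- the explicit inequality -/
theorem core_ineq {μ : Measure Ω} [IsProbabilityMeasure μ] {E : ℕ → Set Ω} {K : ℕ} (hK : 1 ≤ K)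
    (hE : KW μ E (2 * (2 * K))) (V : Finset ℕ) (N : ℕ) (hV : ∀ v ∈ V, v ≤ N) (M H δ : ℝ)
    (hM : M = ∑ v ∈ V, μ.real (E v)) (hM2 : 2 ≤ M) (hMN : M ^ 2 ≤ 8 * (2 * N + 1))
    (hH : 2 * (K : ℝ) ≤ H) (hδ0 : 0 ≤ δ) (hδ : ∀ v ∈ V, μ.real (E v) ≤ δ)
    (hδM : δ ^ 2 ≤ M ^ 2 / (16 * K * (2 * N + 1))) :
    μ.real {ω | ∀ s, rep (rset E ω) s < 2 * K} * H ≤ 4 ∨
      μ.real {ω | ∀ s, rep (rset E ω) s < 2 * K} * (M * (M ^ 2 / (16 * K * (2 * N + 1))) ^ K) ≤
        16 * (4 * K + 1 : ℝ) ^ (K + 3) * H := by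
  classical
  set p : ℕ → ℝ := fun n => μ.real (E n) with hp
  have hp0 : ∀ n, 0 ≤ p n := fun n => measureReal_nonneg
  have hp1 : ∀ n, p n ≤ 1 := fun n => measureReal_le_one
  set P : ℝ := μ.real {ω | ∀ s, rep (rset E ω) s < 2 * K} with hP
  have hP0 : 0 ≤ P := measureReal_nonneg
  set m : ℕ → ℝ := fun s => ∑ a ∈ pairs V s, p a * p (s - a) with hm
  have hm0 : ∀ s, 0 ≤ m s := fun s => sum_nonneg fun a _ => mul_nonneg (hp0 _) (hp0 _)
  have hKr : (1 : ℝ) ≤ K := by exact_mod_cast hK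
  have hN0 : (0 : ℝ) ≤ N := Nat.cast_nonneg N
  by_cases hbig : ∃ s, H ≤ m s
  · left
    obtain ⟨s, hs⟩ := hbig
    have h1 := large_mean (hE.mono (by omega)) V s K (hH.trans hs)
    have h2 : P ≤ μ.real {ω | rep (rset E ω) s < 2 * K} := by
      refine measureReal_mono ?_
      intro ω hω
      exact hω s
    calc P * H ≤ μ.real {ω | rep (rset E ω) s < 2 * K} * m s :=
          mul_le_mul h2 hs (by linarith) measureReal_nonneg
      _ ≤ 4 := h1
  · right
    push Not at hbig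
    set τ : ℝ := M ^ 2 / (16 * K * (2 * N + 1)) with hτ
    set σ : ℝ := M ^ 2 / (8 * (2 * N + 1)) with hσ
    have hστ : σ = K * (τ + τ) := by
      rw [hσ, hτ]
      field_simp
      ring
    have hτ0 : 0 < τ := by
      rw [hτ]
      have : 0 < M := by linarith
      positivity
    have hσ1 : σ ≤ 1 := by
      rw [hσ, div_le_one (by positivity)]
      exact hMN
    set S : Finset ℕ := (range (2 * N + 1)).filter fun s => σ ≤ m s with hS
    have hsum := sum_pairs_ge V N hV p hp0 hp1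
    have hsum2 : M ^ 2 / 4 ≤ ∑ s ∈ range (2 * N + 1), m s := by
      refine le_trans ?_ hsum
      rw [← hM]
      nlinarith
    have hsmall : ∑ s ∈ (range (2 * N + 1)).filter (fun s => ¬ σ ≤ m s), m s ≤ M ^ 2 / 8 := by
      calc ∑ s ∈ (range (2 * N + 1)).filter (fun s => ¬ σ ≤ m s), m s
          ≤ ∑ s ∈ (range (2 * N + 1)).filter (fun s => ¬ σ ≤ m s), σ := by
            refine sum_le_sum fun s hs => ?_
            have := (mem_filter.1 hs).2
            push Not at this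
            exact this.le
        _ ≤ ∑ s ∈ range (2 * N + 1), σ := by
            refine sum_le_sum_of_subset_of_nonneg (filter_subset _ _) fun _ _ _ => ?_
            rw [hστ]
            positivity
        _ = M ^ 2 / 8 := by
            rw [sum_const, card_range, nsmul_eq_mul, hσ]
            push_cast
            field_simp
    have hSsum : M ^ 2 / 8 ≤ ∑ s ∈ S, m s := by
      have := sum_filter_add_sum_filter_not (range (2 * N + 1)) (fun s => σ ≤ m s) m
      rw [← hS] at this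
      linarith
    have hScard : M ^ 2 / 8 ≤ S.card * H := by
      calc M ^ 2 / 8 ≤ ∑ s ∈ S, m s := hSsum
        _ ≤ ∑ _s ∈ S, H := sum_le_sum fun s _ => (hbig s).le
        _ = S.card * H := by rw [sum_const, nsmul_eq_mul]
    -- layers
    have hlay : ∀ s : ℕ, ∃ L : ℕ → Finset ℕ, s ∈ S → (∀ l < K, L l ⊆ pairs V s ∧
        τ ≤ ∑ a ∈ L l, p a * p (s - a) ∧ ∑ a ∈ L l, p a * p (s - a) ≤ τ + τ) ∧
        ∀ l l', l < K → l' < K → l ≠ l' → Disjoint (L l) (L l') := by
      intro s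
      by_cases hs : s ∈ S
      · obtain ⟨L, hL⟩ := exists_layers (fun a => p a * p (s - a)) τ τ hτ0.le hτ0.le K (pairs V s)
          (by
            intro a ha
            obtain ⟨h1, h2, h3⟩ := mem_pairs.1 ha
            calc p a * p (s - a) ≤ δ * δ := mul_le_mul (hδ a h1) (hδ _ h3) (hp0 _) hδ0
              _ = δ ^ 2 := by ring
              _ ≤ τ := hδM) (by
            rw [← hστ]
            exact (mem_filter.1 hs).2)
        exact ⟨L, fun _ => hL⟩
      · exact ⟨fun _ => ∅, fun h => absurd h hs⟩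
    choose L hL using hlay
    have hτ1 : τ + τ ≤ 1 := by
      have h1 : τ + τ ≤ K * (τ + τ) := by nlinarith
      linarith
    have hfin := layers_bound hE V S (fun s (l : Fin K) => L s l) (by
      intro s hs
      obtain ⟨h1, h2⟩ := hL s hs
      refine ⟨fun l a ha => mem_pairs.1 ((h1 l l.2).1 ha), fun l l' hne => ?_⟩
      exact h2 l l' l.2 l'.2 (fun h => hne (Fin.ext h))) τ hτ0
      (fun s hs l => ((hL s hs).1 l l.2).2.1)
      (fun s hs l => (((hL s hs).1 l l.2).2.2).trans hτ1)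
    rw [← hM] at hfin
    have h3 : P ≤ μ.real {ω | ∀ s ∈ S, rep (rset E ω) s < 2 * K} := by
      refine measureReal_mono ?_
      intro ω hω s _
      exact hω s
    have hH0 : 0 < H := by linarith
    have h4 : P * (S.card * τ ^ K) ≤ (4 * K + 1 : ℝ) ^ (K + 3) * (M + 1) :=
      (mul_le_mul_of_nonneg_right h3 (by positivity)).trans hfin
    have h5 : P * (M ^ 2 / 8 * τ ^ K) ≤ (4 * K + 1 : ℝ) ^ (K + 3) * (M + 1) * H := by
      calc P * (M ^ 2 / 8 * τ ^ K) ≤ P * ((S.card * H) * τ ^ K) := by gcongr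
        _ = P * (S.card * τ ^ K) * H := by ring
        _ ≤ (4 * K + 1 : ℝ) ^ (K + 3) * (M + 1) * H := mul_le_mul_of_nonneg_right h4 hH0.le
    have h6 : (4 * K + 1 : ℝ) ^ (K + 3) * (M + 1) * H ≤
        (4 * K + 1 : ℝ) ^ (K + 3) * (2 * M) * H := by
      have : M + 1 ≤ 2 * M := by linarith
      gcongr
    have hM0 : 0 < M := by linarith
    have h7 : P * (M * τ ^ K) * (M / 8) ≤ 16 * (4 * K + 1 : ℝ) ^ (K + 3) * H * (M / 8) := by
      calc P * (M * τ ^ K) * (M / 8) = P * (M ^ 2 / 8 * τ ^ K) := by ring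
        _ ≤ (4 * K + 1 : ℝ) ^ (K + 3) * (2 * M) * H := h5.trans h6
        _ = _ := by ring
    exact le_of_mul_le_mul_right h7 (by positivity)

/-- **The main estimate.** -/
theorem core (K : ℕ) (hK : 1 ≤ K) (θ : ℝ) (hθ : 0 < θ) : ∃ ε : ℝ, 0 < ε ∧ ∃ N₀ : ℕ, ∀ N ≥ N₀,
    ∀ G : ℝ, 1 ≤ G → G ≤ (N : ℝ) ^ ε → ∀ (Ω : Type*) [MeasurableSpace Ω] (μ : Measure Ω)
      [IsProbabilityMeasure μ] (E : ℕ → Set Ω), KW μ E (2 * (2 * K)) →
      Real.sqrt N / G ≤ ∑ n ∈ Icc 1 N, μ.real (E n) →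
      (∀ n, n ≤ N → N ≤ n ^ 4 → μ.real (E n) ≤ ε / G) →
      μ.real {ω | ∀ s, rep (rset E ω) s < 2 * K} ≤ θ := by
  have hKr : (1 : ℝ) ≤ K := by exact_mod_cast hK
  set ε : ℝ := 1 / (1000 * K) with hε
  have hε0 : 0 < ε := by positivity
  set C : ℝ := 64 * (4 * K + 1 : ℝ) ^ (K + 3) * (768 * K) ^ K with hC
  have hC0 : 0 < C := by positivity
  have hlim : Tendsto (fun N : ℕ => (N : ℝ) ^ (1 / 8 : ℝ)) atTop atTop :=
    (tendsto_rpow_atTop (by norm_num)).comp tendsto_natCast_atTop_atTop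
  obtain ⟨N₀, hN₀⟩ := eventually_atTop.1 ((hlim.eventually_ge_atTop
    (8 + 2 * (K : ℝ) + 4 / θ + C / θ)).and (eventually_ge_atTop 1))
  refine ⟨ε, hε0, N₀, fun N hN G hG1 hG Ω _ μ _ E hE hsum hsmall => ?_⟩
  obtain ⟨hx, hN1⟩ := hN₀ N hN
  set x : ℝ := (N : ℝ) ^ (1 / 8 : ℝ) with hxdef
  have hθ4 : 0 < 4 / θ := by positivity
  have hCθ : 0 < C / θ := by positivity
  have hx8 : 8 ≤ x := by linarith
  have hN1r : (1 : ℝ) ≤ N := by exact_mod_cast hN1
  have hN0r : (0 : ℝ) ≤ N := by linarith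
  have hx2 : (N : ℝ) ^ (1 / 4 : ℝ) = x ^ 2 := by
    rw [hxdef, ← Real.rpow_natCast, ← Real.rpow_mul hN0r]
    norm_num
  have hx4 : Real.sqrt N = x ^ 4 := by
    rw [Real.sqrt_eq_rpow, hxdef, ← Real.rpow_natCast, ← Real.rpow_mul hN0r]
    norm_num
  have hxN : (N : ℝ) = x ^ 8 := by
    rw [hxdef, ← Real.rpow_natCast, ← Real.rpow_mul hN0r]
    norm_num
  have hGx : G ^ (2 * K + 1) ≤ x := by
    calc G ^ (2 * K + 1) ≤ ((N : ℝ) ^ ε) ^ (2 * K + 1) :=
          pow_le_pow_left₀ (by linarith) hG _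
      _ = (N : ℝ) ^ (ε * (2 * K + 1)) := by
          rw [← Real.rpow_natCast, ← Real.rpow_mul hN0r]
          push_cast
          rfl
      _ ≤ x := by
          rw [hxdef]
          refine Real.rpow_le_rpow_of_exponent_le hN1r ?_
          rw [hε, div_mul_eq_mul_div, one_mul, div_le_div_iff₀ (by positivity) (by norm_num)]
          linarith
  have hG1x : G ≤ x := by
    calc G = G ^ 1 := (pow_one G).symm
      _ ≤ G ^ (2 * K + 1) := pow_le_pow_right₀ hG1 (by omega)
      _ ≤ x := hGx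
  set W : ℝ := x ^ 4 / (4 * G) with hW
  have hG0 : 0 < G := by linarith
  have hx0 : 0 < x := by linarith
  have hWx : x ^ 3 / 4 ≤ W := by
    rw [hW, div_le_div_iff₀ (by norm_num) (by positivity)]
    have h1 : x ^ 3 * G ≤ x ^ 3 * x := mul_le_mul_of_nonneg_left hG1x (by positivity)
    nlinarith
  have hx3 : 8 * x ^ 2 ≤ x ^ 3 := by nlinarith [sq_nonneg x]
  have hx2' : 64 ≤ x ^ 2 := by nlinarith
  have hW2 : 2 ≤ W := by nlinarith
  -- the vertices
  set V₀ : Finset ℕ := (Icc 1 N).filter fun n => N ≤ n ^ 4 with hV₀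
  have hcardlow : (((Icc 1 N).filter fun n => ¬ N ≤ n ^ 4).card : ℝ) ≤ x ^ 2 := by
    have h1 : (Icc 1 N).filter (fun n => ¬ N ≤ n ^ 4) ⊆ Icc 1 ⌊x ^ 2⌋₊ := by
      intro n hn
      obtain ⟨h2, h3⟩ := mem_filter.1 hn
      rw [mem_Icc] at h2 ⊢
      refine ⟨h2.1, Nat.le_floor ?_⟩
      push Not at h3
      have h4 : ((n : ℝ)) ^ 4 ≤ (x ^ 2) ^ 4 := by
        have h5 : ((n : ℝ)) ^ 4 < N := by exact_mod_cast h3
        have h6 : (x ^ 2) ^ 4 = x ^ 8 := by ring
        rw [h6, ← hxN]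
        exact h5.le
      exact le_of_pow_le_pow_left₀ (by norm_num) (by positivity) h4
    calc (((Icc 1 N).filter fun n => ¬ N ≤ n ^ 4).card : ℝ)
        ≤ ((Icc 1 ⌊x ^ 2⌋₊).card : ℝ) := by exact_mod_cast card_le_card h1
      _ = (⌊x ^ 2⌋₊ : ℝ) := by rw [Nat.card_Icc]; simp
      _ ≤ x ^ 2 := Nat.floor_le (by positivity)
  have hV₀sum : W ≤ ∑ v ∈ V₀, μ.real (E v) := by
    have h1 := sum_filter_add_sum_filter_not (Icc 1 N) (fun n => N ≤ n ^ 4)
      (fun n => μ.real (E n))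
    rw [← hV₀] at h1
    have h2 : ∑ n ∈ (Icc 1 N).filter (fun n => ¬ N ≤ n ^ 4), μ.real (E n) ≤ x ^ 2 := by
      calc ∑ n ∈ (Icc 1 N).filter (fun n => ¬ N ≤ n ^ 4), μ.real (E n)
          ≤ ∑ n ∈ (Icc 1 N).filter (fun n => ¬ N ≤ n ^ 4), (1 : ℝ) :=
            sum_le_sum fun n _ => measureReal_le_one
        _ = (((Icc 1 N).filter fun n => ¬ N ≤ n ^ 4).card : ℝ) := by simp
        _ ≤ x ^ 2 := hcardlow
    have h3 : Real.sqrt N / G = 4 * W := by
      rw [hx4, hW]
      field_simp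
    rw [h3] at hsum
    nlinarith
  obtain ⟨V, hVV, hV1, hV2⟩ := subsum V₀ (fun n => μ.real (E n)) 1 W zero_le_one (by linarith)
    (fun a _ => measureReal_le_one) hV₀sum
  set M : ℝ := ∑ v ∈ V, μ.real (E v) with hM
  have hMW : M ≤ 2 * W := by linarith
  have hW2N : W ^ 2 = x ^ 8 / (16 * G ^ 2) := by
    rw [hW, div_pow]
    ring
  have hG2 : 1 ≤ G ^ 2 := by nlinarith
  have hWN : W ^ 2 ≤ N := by
    rw [hW2N, hxN, div_le_iff₀ (by positivity)]
    have : 0 ≤ x ^ 8 := by positivity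
    nlinarith
  have hτ : 1 / (768 * K * G ^ 2) ≤ M ^ 2 / (16 * K * (2 * N + 1)) := by
    have h1 : W ^ 2 ≤ M ^ 2 := pow_le_pow_left₀ (by linarith) hV1 2
    calc 1 / (768 * K * G ^ 2) = W ^ 2 / (16 * K * (3 * N)) := by
          rw [hW2N, hxN]
          have : x ^ 8 ≠ 0 := by positivity
          field_simp
          norm_num
      _ ≤ M ^ 2 / (16 * K * (2 * N + 1)) := by
          apply div_le_div₀ (by positivity) h1 (by positivity)
          have : (2 * (N : ℝ) + 1) ≤ 3 * N := by linarith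
          gcongr
  have hmain := core_ineq hK hE V N (fun v hv => (mem_Icc.1 (mem_filter.1 (hVV hv)).1).2) M x
    (ε / G) hM (by linarith) (by nlinarith) (by linarith) (by positivity)
    (fun v hv => by
      have h1 := mem_filter.1 (hVV hv)
      exact hsmall v (mem_Icc.1 h1.1).2 h1.2) (by
      refine le_trans ?_ hτ
      rw [div_pow, div_le_div_iff₀ (by positivity) (by positivity), hε]
      have h1 : (1 / (1000 * (K : ℝ))) ^ 2 * (768 * K) ≤ 1 := by
        rw [div_pow, one_pow, div_mul_eq_mul_div, one_mul, div_le_one (by positivity)]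
        nlinarith
      have h2 : 0 ≤ G ^ 2 := by positivity
      calc (1 / (1000 * (K : ℝ))) ^ 2 * (768 * K * G ^ 2)
          = (1 / (1000 * (K : ℝ))) ^ 2 * (768 * K) * G ^ 2 := by ring
        _ ≤ 1 * G ^ 2 := mul_le_mul_of_nonneg_right h1 h2)
  set P : ℝ := μ.real {ω | ∀ s, rep (rset E ω) s < 2 * K} with hP
  have hP0 : 0 ≤ P := measureReal_nonneg
  rcases hmain with h | h
  · have h1 : 4 / θ ≤ x := by nlinarith
    have h2 : P * (4 / θ) ≤ 4 := (mul_le_mul_of_nonneg_left h1 hP0).trans h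
    rw [mul_div_assoc', div_le_iff₀ hθ] at h2
    linarith
  · have h1 : P * (W * (1 / (768 * K * G ^ 2)) ^ K) ≤ 16 * (4 * K + 1 : ℝ) ^ (K + 3) * x := by
      refine le_trans ?_ h
      refine mul_le_mul_of_nonneg_left ?_ hP0
      exact mul_le_mul hV1 (pow_le_pow_left₀ (by positivity) hτ K) (by positivity) (by linarith)
    have h2 : P * x ^ 4 ≤ C * x * G ^ (2 * K + 1) := by
      have h3 : P * (W * (1 / (768 * K * G ^ 2)) ^ K) * (4 * G * (768 * K * G ^ 2) ^ K) =
          P * x ^ 4 := by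
        rw [hW, div_pow, one_pow]
        field_simp
      calc P * x ^ 4 = P * (W * (1 / (768 * K * G ^ 2)) ^ K) * (4 * G * (768 * K * G ^ 2) ^ K) :=
            h3.symm
        _ ≤ 16 * (4 * K + 1 : ℝ) ^ (K + 3) * x * (4 * G * (768 * K * G ^ 2) ^ K) :=
            mul_le_mul_of_nonneg_right h1 (by positivity)
        _ = C * x * G ^ (2 * K + 1) := by
            rw [hC, mul_pow, ← pow_mul, pow_succ]
            ring
    have h4 : P * x ^ 4 ≤ C * x * x := by
      refine h2.trans ?_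
      exact mul_le_mul_of_nonneg_left hGx (by positivity)
    have h5 : P * x ≤ C := by
      have h6 : (P * x ^ 2) * x ^ 2 ≤ C * x ^ 2 := by nlinarith
      have h7 : P * x ^ 2 ≤ C := le_of_mul_le_mul_right h6 (by positivity)
      have h8 : P * x ≤ P * x ^ 2 := by
        apply mul_le_mul_of_nonneg_left _ hP0
        nlinarith
      linarith
    have h9 : C / θ ≤ x := by linarith
    have h10 : P * (C / θ) ≤ C := (mul_le_mul_of_nonneg_left h9 hP0).trans h5
    rw [mul_div_assoc', div_le_iff₀ hθ] at h10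
    nlinarith

end Pool.Agent.Y940.RS
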